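import Mathlib

/-!
MP_9999b5_co (Manickam-Miklos-Singhi), the scalar lemmas S0-S4 of helper83's form of the proof (helper13).
`t = T/k`, `τ = t/(2+t) = T/(2k+T)`, `u = t/(1+t) = T/(k+T)`, `q = P(NN)`, `r = P(PP)`, `h = P(K heavy)`.
-/

set_option autoImplicit false

namespace Pool.Agent.Work.MP_9999b5_h13

/-- S0, first half: in (SP) the worst case is `r = 0`. -/
theorem sp0 (τ q h r : ℝ) (hτ0 : 0 ≤ τ) (hτ1 : τ ≤ 1) (hq : 0 ≤ q) (hr : 0 ≤ r) (hr1 : r ≤ 1)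
    (hh0 : 0 ≤ h) (hh1 : h < 1)
    (hSP : (1 - τ ^ 2) * (q ^ 2 * (1 - h) + r ^ 2 * h) ≤
      h * (1 - h) * ((q - r) ^ 2 + τ - τ * (1 + τ) * (q + r))) :
    (1 - τ ^ 2) * q ^ 2 ≤ h * (q ^ 2 + τ - τ * (1 + τ) * q) := by
  have hl : 0 < 1 - h := by linarith
  have h1 : (1 - h) * ((1 - τ ^ 2) * q ^ 2 - h * (q ^ 2 + τ - τ * (1 + τ) * q)) ≤
      h * r * ((1 - h) * (-(2 * q) - τ * (1 + τ)) + ((1 - h) - 1 + τ ^ 2) * r) := by
    nlinarith [hSP]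
  have h2 : ((1 - h) - 1 + τ ^ 2) * r ≤ (1 - h) * τ ^ 2 * r := by
    have : ((1 - h) - 1 + τ ^ 2) ≤ (1 - h) * τ ^ 2 := by nlinarith [mul_nonneg hh0 (by nlinarith : (0:ℝ) ≤ 1 - τ ^ 2)]
    exact mul_le_mul_of_nonneg_right this hr
  have h3 : (1 - h) * τ ^ 2 * r ≤ (1 - h) * τ ^ 2 := by
    have : 0 ≤ (1 - h) * τ ^ 2 := by positivity
    nlinarith
  have h4 : (1 - h) * (-(2 * q) - τ * (1 + τ)) + ((1 - h) - 1 + τ ^ 2) * r ≤ 0 := by
    have h5 : 0 ≤ (1 - h) * (2 * q) := by positivity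
    have h6 : 0 ≤ (1 - h) * τ := by positivity
    nlinarith
  have h7 : h * r * ((1 - h) * (-(2 * q) - τ * (1 + τ)) + ((1 - h) - 1 + τ ^ 2) * r) ≤ 0 :=
    mul_nonpos_of_nonneg_of_nonpos (mul_nonneg hh0 hr) h4
  have h8 : (1 - h) * ((1 - τ ^ 2) * q ^ 2 - h * (q ^ 2 + τ - τ * (1 + τ) * q)) ≤ 0 := h1.trans h7
  have h9 : (1 - τ ^ 2) * q ^ 2 - h * (q ^ 2 + τ - τ * (1 + τ) * q) ≤ 0 := by
    by_contra hc
    push Not at hc
    have := mul_pos hl hc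
    linarith
  linarith

/-- S0, second half: in (RF) the worst case is `r = 0`. -/
theorem rf0 (u q h r f f0 : ℝ) (hf : f0 ≤ f) (hf1 : f0 ≤ 1) (hr : 0 ≤ r) (hqr : r ≤ 1 + q)
    (hRF : f * (1 + q - r) ≤ (1 - h - r) + u * (h - q)) :
    f0 * (1 + q) ≤ (1 - h) + u * (h - q) := by
  have h1 : f0 * (1 + q - r) ≤ f * (1 + q - r) := mul_le_mul_of_nonneg_right hf (by linarith)
  have h2 : f0 * r ≤ 1 * r := mul_le_mul_of_nonneg_right hf1 hr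
  nlinarith

/-- (RF0) solved for `h`. -/
theorem rf1 (t u q h f0 : ℝ) (ht : 0 < t) (hu : u * (1 + t) = t)
    (hRF : f0 * (1 + q) ≤ (1 - h) + u * (h - q)) :
    h ≤ (1 - f0) * (1 + t) - (t + f0 * (1 + t)) * q := by
  have h1 : f0 * (1 + q) * (1 + t) ≤ ((1 - h) + u * (h - q)) * (1 + t) :=
    mul_le_mul_of_nonneg_right hRF (by linarith)
  have h2 : ((1 - h) + u * (h - q)) * (1 + t) = (1 - h) * (1 + t) + t * (h - q) := by
    rw [add_mul]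
    have : u * (h - q) * (1 + t) = (u * (1 + t)) * (h - q) := by ring
    rw [this, hu]
  rw [h2] at h1
  nlinarith

/-- (SP0) in `t`. -/
theorem sp1 (t τ q h : ℝ) (ht : 0 < t) (hτ : τ * (2 + t) = t)
    (hSP : (1 - τ ^ 2) * q ^ 2 ≤ h * (q ^ 2 + τ - τ * (1 + τ) * q)) :
    4 * (1 + t) * q ^ 2 ≤ h * ((2 + t) ^ 2 * q ^ 2 + t * (2 + t) - 2 * t * (1 + t) * q) := by
  have h0 : 0 < (2 + t) ^ 2 := by positivity
  have h1 := mul_le_mul_of_nonneg_left hSP h0.le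
  have h2 : (2 + t) ^ 2 * ((1 - τ ^ 2) * q ^ 2) = 4 * (1 + t) * q ^ 2 := by
    have : (2 + t) ^ 2 * ((1 - τ ^ 2) * q ^ 2) = ((2 + t) ^ 2 - (τ * (2 + t)) ^ 2) * q ^ 2 := by ring
    rw [this, hτ]; ring
  have h3 : (2 + t) ^ 2 * (h * (q ^ 2 + τ - τ * (1 + τ) * q)) =
      h * ((2 + t) ^ 2 * q ^ 2 + t * (2 + t) - 2 * t * (1 + t) * q) := by
    have : (2 + t) ^ 2 * (h * (q ^ 2 + τ - τ * (1 + τ) * q)) =
      h * ((2 + t) ^ 2 * q ^ 2 + (τ * (2 + t)) * (2 + t) - (τ * (2 + t)) * ((2 + t) + τ * (2 + t)) * q) := by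
      ring
    rw [this, hτ]; ring
  rw [h2, h3] at h1
  exact h1

/-- The bound of `q`: if the curve is above the line at `q0 = 1/s`, then `q ≤ q0`. -/
theorem q_bound (t q h f0 q0 s : ℝ) (ht : 0 < t) (hq1 : q ≤ 1) (hf0 : 0 ≤ f0) (hs : s * q0 = 1) (hq0 : 0 < q0)
    (hh : h ≤ (1 - f0) * (1 + t) - (t + f0 * (1 + t)) * q)
    (hSP : 4 * (1 + t) * q ^ 2 ≤ h * ((2 + t) ^ 2 * q ^ 2 + t * (2 + t) - 2 * t * (1 + t) * q))
    (hpos : 0 ≤ (1 - f0) * (1 + t) - (t + f0 * (1 + t)) * q0)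
    (hkey : ((1 - f0) * (1 + t) - (t + f0 * (1 + t)) * q0) *
      ((2 + t) ^ 2 + t * (2 + t) * s ^ 2 - 2 * t * (1 + t) * s) < 4 * (1 + t)) :
    q ≤ q0 := by
  by_contra hc
  push Not at hc
  have hq : 0 < q := hq0.trans hc
  have hs0 : 0 < s := by
    by_contra hs'
    push Not at hs'
    nlinarith
  have hsq : 1 < s * q := by
    calc 1 = s * q0 := hs.symm
      _ < s * q := mul_lt_mul_of_pos_left hc hs0
  have hE : (2 + t) ^ 2 * q ^ 2 + t * (2 + t) - 2 * t * (1 + t) * q ≤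
      q ^ 2 * ((2 + t) ^ 2 + t * (2 + t) * s ^ 2 - 2 * t * (1 + t) * s) := by
    have h1 : q ^ 2 * ((2 + t) ^ 2 + t * (2 + t) * s ^ 2 - 2 * t * (1 + t) * s) -
        ((2 + t) ^ 2 * q ^ 2 + t * (2 + t) - 2 * t * (1 + t) * q) =
        t * (s * q - 1) * ((2 + t) * (1 + s * q) - 2 * (1 + t) * q) := by ring
    have h2 : 0 ≤ (2 + t) * (1 + s * q) - 2 * (1 + t) * q := by nlinarith
    have h3 : 0 ≤ t * (s * q - 1) * ((2 + t) * (1 + s * q) - 2 * (1 + t) * q) :=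
      mul_nonneg (mul_nonneg ht.le (by linarith)) h2
    linarith
  have hD : 0 < (2 + t) ^ 2 * q ^ 2 + t * (2 + t) - 2 * t * (1 + t) * q := by
    nlinarith [sq_nonneg (q - 1), mul_pos ht hq, mul_pos ht ht, mul_nonneg (mul_pos ht ht).le (sub_nonneg.2 hq1),
      mul_nonneg ht.le (sub_nonneg.2 hq1)]
  have hA : h ≤ (1 - f0) * (1 + t) - (t + f0 * (1 + t)) * q0 := by
    have : (t + f0 * (1 + t)) * q0 ≤ (t + f0 * (1 + t)) * q :=
      mul_le_mul_of_nonneg_left hc.le (by positivity)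
    linarith
  have h1 : h * ((2 + t) ^ 2 * q ^ 2 + t * (2 + t) - 2 * t * (1 + t) * q) ≤
      ((1 - f0) * (1 + t) - (t + f0 * (1 + t)) * q0) *
        ((2 + t) ^ 2 * q ^ 2 + t * (2 + t) - 2 * t * (1 + t) * q) :=
    mul_le_mul_of_nonneg_right hA hD.le
  have h2 : ((1 - f0) * (1 + t) - (t + f0 * (1 + t)) * q0) *
        ((2 + t) ^ 2 * q ^ 2 + t * (2 + t) - 2 * t * (1 + t) * q) ≤
      ((1 - f0) * (1 + t) - (t + f0 * (1 + t)) * q0) *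
        (q ^ 2 * ((2 + t) ^ 2 + t * (2 + t) * s ^ 2 - 2 * t * (1 + t) * s)) :=
    mul_le_mul_of_nonneg_left hE hpos
  have h3 : ((1 - f0) * (1 + t) - (t + f0 * (1 + t)) * q0) *
        (q ^ 2 * ((2 + t) ^ 2 + t * (2 + t) * s ^ 2 - 2 * t * (1 + t) * s)) <
      4 * (1 + t) * q ^ 2 := by
    have := mul_lt_mul_of_pos_left hkey (show 0 < q ^ 2 by positivity)
    nlinarith
  linarith

/-- S3 (QL). -/
theorem ql (τ q h L q0 : ℝ) (hτ0 : 0 < τ) (hτ1 : τ ≤ 1 / 3) (hq : 0 ≤ q) (hqh : q ≤ h) (hqq : q ≤ q0) (hq0 : q0 ≤ 3 / 5)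
    (hL : 1 + τ ≤ L)
    (hSP : (1 - τ ^ 2) * q ^ 2 ≤ h * (q ^ 2 + τ - τ * (1 + τ) * q))
    (hkey : 0 ≤ -(1 + L) * q0 ^ 2 + (L + τ + τ ^ 2) * q0 - τ) :
    q - τ ≤ L * (h - q) := by
  rcases le_or_gt q τ with hqt | hqt
  · have : 0 ≤ L * (h - q) := mul_nonneg (by linarith) (by linarith)
    linarith
  · have hD : 0 < q ^ 2 + τ - τ * (1 + τ) * q := by nlinarith [mul_pos hτ0 (hτ0.trans hqt)]
    -- concavity
    have hQ : 0 ≤ -(1 + L) * q ^ 2 + (L + τ + τ ^ 2) * q - τ := by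
      have e1 : 0 ≤ -(1 + L) * τ ^ 2 + (L + τ + τ ^ 2) * τ - τ := by
        have : -(1 + L) * τ ^ 2 + (L + τ + τ ^ 2) * τ - τ = τ * (1 - τ) * (L - 1 - τ) := by ring
        rw [this]
        exact mul_nonneg (mul_nonneg hτ0.le (by linarith)) (by linarith)
      rcases eq_or_lt_of_le hqq with he | hlt
      · rw [he]; exact hkey
      · have hw : 0 < q0 - τ := by linarith
        have e2 : (q0 - τ) * (-(1 + L) * q ^ 2 + (L + τ + τ ^ 2) * q - τ) =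
            (q0 - q) * (-(1 + L) * τ ^ 2 + (L + τ + τ ^ 2) * τ - τ) +
            (q - τ) * (-(1 + L) * q0 ^ 2 + (L + τ + τ ^ 2) * q0 - τ) +
            (1 + L) * ((q0 - τ) * ((q - τ) * (q0 - q))) := by ring
        have e3 : 0 ≤ (q0 - τ) * (-(1 + L) * q ^ 2 + (L + τ + τ ^ 2) * q - τ) := by
          rw [e2]
          have a1 := mul_nonneg (by linarith : (0:ℝ) ≤ q0 - q) e1
          have a2 := mul_nonneg (by linarith : (0:ℝ) ≤ q - τ) hkey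
          have a3 : 0 ≤ (1 + L) * ((q0 - τ) * ((q - τ) * (q0 - q))) :=
            mul_nonneg (by linarith) (mul_nonneg hw.le (mul_nonneg (by linarith) (by linarith)))
          linarith
        by_contra hc
        push Not at hc
        have := mul_neg_of_pos_of_neg hw hc
        linarith
    by_contra hc
    push Not at hc
    -- L h < (1+L) q - τ
    have h1 : L * h < (1 + L) * q - τ := by linarith
    have h2 : L * h * (q ^ 2 + τ - τ * (1 + τ) * q) < ((1 + L) * q - τ) * (q ^ 2 + τ - τ * (1 + τ) * q) :=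
      mul_lt_mul_of_pos_right h1 hD
    have h3 : L * ((1 - τ ^ 2) * q ^ 2) ≤ L * (h * (q ^ 2 + τ - τ * (1 + τ) * q)) :=
      mul_le_mul_of_nonneg_left hSP (by linarith)
    have h4 : L * ((1 - τ ^ 2) * q ^ 2) - ((1 + L) * q - τ) * (q ^ 2 + τ - τ * (1 + τ) * q) =
        (q - τ) * (-(1 + L) * q ^ 2 + (L + τ + τ ^ 2) * q - τ) := by ring
    have h5 : 0 ≤ (q - τ) * (-(1 + L) * q ^ 2 + (L + τ + τ ^ 2) * q - τ) :=
      mul_nonneg (by linarith) hQ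
    nlinarith

/-- S4 (HL), `L = 8/5` or `3/2`, in `t`. -/
theorem hl (t τ q h f0 L q0 : ℝ) (ht : 0 < t) (ht1 : t ≤ 1) (hτ : τ * (2 + t) = t) (hq : 0 ≤ q) (hqq : q ≤ q0) (hq0 : 0 < q0)
    (hf0 : 0 ≤ f0)
    (hh : h ≤ (1 - f0) * (1 + t) - (t + f0 * (1 + t)) * q)
    (hkey : L * q0 * (4 * (2 + t)) ≤ (12 + 5 * t) * (2 - ((1 - f0) * (1 + t) - (t + f0 * (1 + t)) * q0) - q0)) :
    L * q ≤ 3 / 2 * (1 - τ / 6) * (2 - h - q) := by
  have h2t : 0 < 2 + t := by linarith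
  have e1 : 4 * (2 + t) * (3 / 2 * (1 - τ / 6)) = 12 + 5 * t := by
    have : 4 * (2 + t) * (3 / 2 * (1 - τ / 6)) = 6 * (2 + t) - τ * (2 + t) := by ring
    rw [this, hτ]; ring
  have h0 : 0 ≤ 2 - (1 - f0) * (1 + t) := by nlinarith
  have e2 : q0 * ((12 + 5 * t) * (2 - ((1 - f0) * (1 + t) - (t + f0 * (1 + t)) * q) - q) - L * q * (4 * (2 + t))) =
      (q0 - q) * ((12 + 5 * t) * (2 - (1 - f0) * (1 + t))) +
      q * ((12 + 5 * t) * (2 - ((1 - f0) * (1 + t) - (t + f0 * (1 + t)) * q0) - q0) - L * q0 * (4 * (2 + t))) := by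
    ring
  have e3 : 0 ≤ q0 * ((12 + 5 * t) * (2 - ((1 - f0) * (1 + t) - (t + f0 * (1 + t)) * q) - q) - L * q * (4 * (2 + t))) := by
    rw [e2]
    have a1 : 0 ≤ (q0 - q) * ((12 + 5 * t) * (2 - (1 - f0) * (1 + t))) :=
      mul_nonneg (by linarith) (mul_nonneg (by linarith) h0)
    have a2 := mul_nonneg hq (sub_nonneg.2 hkey)
    linarith
  have e4 : L * q * (4 * (2 + t)) ≤ (12 + 5 * t) * (2 - ((1 - f0) * (1 + t) - (t + f0 * (1 + t)) * q) - q) := by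
    by_contra hc
    push Not at hc
    have := mul_neg_of_pos_of_neg hq0 (sub_neg.2 hc)
    linarith
  have e5 : (12 + 5 * t) * (2 - ((1 - f0) * (1 + t) - (t + f0 * (1 + t)) * q) - q) ≤ (12 + 5 * t) * (2 - h - q) :=
    mul_le_mul_of_nonneg_left (by linarith) (by linarith)
  have e6 : 4 * (2 + t) * (L * q) ≤ 4 * (2 + t) * (3 / 2 * (1 - τ / 6) * (2 - h - q)) := by
    rw [← mul_assoc (4 * (2 + t)) (3 / 2 * (1 - τ / 6)), e1]
    nlinarith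
  exact le_of_mul_le_mul_left e6 (by linarith)

/-- The lower bound of `f(1 + 1/t)` on the four intervals. -/
def Mid (t f0 : ℝ) : Prop :=
  (1 / 3 ≤ t ∧ t ≤ 3 / 7 ∧ f0 = 9 / 49) ∨ (3 / 7 ≤ t ∧ t ≤ 1 / 2 ∧ f0 = 1 / 5) ∨
  (1 / 2 ≤ t ∧ t ≤ 3 / 4 ∧ f0 = 9 / 40) ∨ (3 / 4 ≤ t ∧ t ≤ 1 ∧ f0 = 1 / 4)

/-- **All scalar facts for `1/3 ≤ t ≤ 1`** (`Λ = 8/5`). -/
theorem scal_mid (t τ u q h r f f0 : ℝ) (hM : Mid t f0) (hτ : τ * (2 + t) = t) (hu : u * (1 + t) = t)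
    (hf : f0 ≤ f) (hq : 0 ≤ q) (hqh : q ≤ h) (hh1 : h < 1) (hr : 0 ≤ r) (hr1 : r ≤ 1)
    (hSP : (1 - τ ^ 2) * (q ^ 2 * (1 - h) + r ^ 2 * h) ≤
      h * (1 - h) * ((q - r) ^ 2 + τ - τ * (1 + τ) * (q + r)))
    (hRF : f * (1 + q - r) ≤ (1 - h - r) + u * (h - q)) :
    q ≤ 11 / 20 ∧ q - τ ≤ 8 / 5 * (h - q) ∧ 8 / 5 * q ≤ 3 / 2 * (1 - τ / 6) * (2 - h - q) := by
  have ht13 : 1 / 3 ≤ t := by rcases hM with h | h | h | h <;> linarith [h.1]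
  have ht1 : t ≤ 1 := by rcases hM with h | h | h | h <;> linarith [h.2.1]
  have ht0 : 0 < t := by linarith
  have hτ0 : 0 < τ := by
    by_contra hc
    push Not at hc
    nlinarith
  have hτ1 : τ ≤ 1 / 3 := by
    by_contra hc
    push Not at hc
    nlinarith
  have hf00 : 0 ≤ f0 := by rcases hM with h | h | h | h <;> rw [h.2.2] <;> norm_num
  have hf01 : f0 ≤ 1 := by rcases hM with h | h | h | h <;> rw [h.2.2] <;> norm_num
  have hSP0 := sp0 τ q h r hτ0.le (by linarith) hq hr hr1 (by linarith) hh1 hSP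
  have hRF0 := rf0 u q h r f f0 hf hf01 hr (by linarith) hRF
  have hh := rf1 t u q h f0 ht0 hu hRF0
  have hSP1 := sp1 t τ q h ht0 hτ hSP0
  have hqq : q ≤ 11 / 20 := by
    refine q_bound t q h f0 (11 / 20) (20 / 11) ht0 (by linarith) hf00 (by norm_num) (by norm_num) hh hSP1 ?_ ?_
    · rcases hM with h | h | h | h <;> obtain ⟨a1, a2, a3⟩ := h <;> rw [a3] <;> nlinarith
    · rcases hM with h | h | h | h <;> obtain ⟨a1, a2, a3⟩ := h <;> rw [a3] <;>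
        nlinarith [mul_nonneg (sub_nonneg.2 a1) (sub_nonneg.2 a2), mul_nonneg ht0.le (mul_nonneg (sub_nonneg.2 a1) (sub_nonneg.2 a2))]
  refine ⟨hqq, ?_, ?_⟩
  · refine ql τ q h (8 / 5) (11 / 20) hτ0 hτ1 hq hqh hqq (by norm_num) (by linarith) hSP0 ?_
    nlinarith
  · refine hl t τ q h f0 (8 / 5) (11 / 20) ht0 ht1 hτ hq hqq (by norm_num) hf00 hh ?_
    rcases hM with h | h | h | h <;> obtain ⟨a1, a2, a3⟩ := h <;> rw [a3] <;> nlinarith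

/-- **All scalar facts for `0 < t ≤ 1/3`** (`Λ = 3/2`, `f(1+1/t) ≥ u`). -/
theorem scal_low (t τ u q h r f : ℝ) (ht0 : 0 < t) (ht : t ≤ 1 / 3) (hτ : τ * (2 + t) = t) (hu : u * (1 + t) = t)
    (hf : u ≤ f) (hq : 0 ≤ q) (hqh : q ≤ h) (hh1 : h < 1) (hr : 0 ≤ r) (hr1 : r ≤ 1)
    (hSP : (1 - τ ^ 2) * (q ^ 2 * (1 - h) + r ^ 2 * h) ≤
      h * (1 - h) * ((q - r) ^ 2 + τ - τ * (1 + τ) * (q + r)))
    (hRF : f * (1 + q - r) ≤ (1 - h - r) + u * (h - q)) :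
    q ≤ 1 / 2 ∧ q - τ ≤ 3 / 2 * (h - q) ∧ 3 / 2 * q ≤ 3 / 2 * (1 - τ / 6) * (2 - h - q) := by
  have hτ0 : 0 < τ := by
    by_contra hc
    push Not at hc
    nlinarith
  have hτ1 : τ ≤ 1 / 7 := by
    by_contra hc
    push Not at hc
    nlinarith
  have hu0 : 0 ≤ u := by
    by_contra hc
    push Not at hc
    nlinarith
  have hu1 : u ≤ 1 := by
    by_contra hc
    push Not at hc
    nlinarith
  have hSP0 := sp0 τ q h r hτ0.le (by linarith) hq hr hr1 (by linarith) hh1 hSP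
  have hRF0 := rf0 u q h r f u hf hu1 hr (by linarith) hRF
  have hh := rf1 t u q h u ht0 hu hRF0
  have hSP1 := sp1 t τ q h ht0 hτ hSP0
  have ha : (1 - u) * (1 + t) = 1 := by rw [sub_mul, hu]; ring
  have hb : u * (1 + t) = t := hu
  have hqq : q ≤ 1 / 2 := by
    refine q_bound t q h u (1 / 2) 2 ht0 (by linarith) hu0 (by norm_num) (by norm_num) hh hSP1 ?_ ?_
    · rw [ha, hb]; linarith
    · rw [ha, hb]; nlinarith [mul_pos ht0 ht0]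
  refine ⟨hqq, ?_, ?_⟩
  · refine ql τ q h (3 / 2) (1 / 2) hτ0 (by linarith) hq hqh hqq (by norm_num) (by linarith) hSP0 ?_
    nlinarith
  · refine hl t τ q h u (3 / 2) (1 / 2) ht0 (by linarith) hτ hq hqq (by norm_num) hu0 hh ?_
    rw [ha, hb]; nlinarith [mul_pos ht0 ht0]

end Pool.Agent.Work.MP_9999b5_h13
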